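import Pool.Agent.Helper77.OC.St

/-!
# MP_7a9ddc_co, project OC, module C3: a sparse intermediate set
-/

set_option autoImplicit false

namespace Pool.Agent.Helper74.OC.C3

open Pool.Agent.Helper35.PM Pool.Agent.Helper77.HY Pool.Agent.Helper77.OC

variable {V : Type} [Finite V] (G : SimpleGraph V)

theorem lost_le (U : Finset V) (L : V → Finset ℕ) (c : V → ℕ) (r : V) :
    lost G U L c r ≤ dg G r U := by
  unfold lost dg
  have h : {γ : ℕ | γ ∈ L r ∧ ∃ u ∈ U, G.Adj r u ∧ c u = γ} ⊆ c '' {u : V | u ∈ U ∧ G.Adj r u} := by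
    rintro γ ⟨-, u, hu, hru, rfl⟩
    exact ⟨u, ⟨hu, hru⟩, rfl⟩
  exact (Set.ncard_le_ncard h (Set.toFinite _)).trans (Set.ncard_image_le (Set.toFinite _))

theorem lost_lt (U : Finset V) (L : V → Finset ℕ) (c : V → ℕ) (r x : V) (hx : x ∈ U)
    (hrx : G.Adj r x) (h : c x ∉ L r ∨ ∃ z ∈ U, G.Adj r z ∧ z ≠ x ∧ c z = c x) :
    lost G U L c r + 1 ≤ dg G r U := by
  unfold lost dg
  have h1 : {γ : ℕ | γ ∈ L r ∧ ∃ u ∈ U, G.Adj r u ∧ c u = γ} ⊆
      c '' ({u : V | u ∈ U ∧ G.Adj r u} \ {x}) := by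
    rintro γ ⟨hγ, u, hu, hru, rfl⟩
    by_cases hux : u = x
    · subst hux
      rcases h with h | ⟨z, hz, hrz, hzx, hcz⟩
      · exact (h hγ).elim
      · exact ⟨z, ⟨⟨hz, hrz⟩, hzx⟩, hcz⟩
    · exact ⟨u, ⟨⟨hu, hru⟩, hux⟩, rfl⟩
  have h2 : ({u : V | u ∈ U ∧ G.Adj r u} \ {x}).ncard + 1 = {u : V | u ∈ U ∧ G.Adj r u}.ncard :=
    Set.ncard_sdiff_singleton_add_one (s := {u : V | u ∈ U ∧ G.Adj r u}) ⟨hx, hrx⟩
      (Set.toFinite _)
  have h3 := (Set.ncard_le_ncard h1 (Set.toFinite _)).trans (Set.ncard_image_le (Set.toFinite _))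
  omega

theorem main (hExt : StExt) : StC3 := by
  intro V _ _ G p S U W hSU hUW hp hS hU hy hdf hdfW L A hL
  classical
  obtain ⟨y, hyW, hyU, hyd⟩ := hy
  -- the two neighbours
  obtain ⟨s, s', hs, hs', hss'⟩ : ∃ s s', s ∈ {v : V | v ∈ S ∧ G.Adj y v} ∧
      s' ∈ {v : V | v ∈ S ∧ G.Adj y v} ∧ s ≠ s' :=
    (Set.one_lt_ncard_iff (Set.toFinite _)).1 hyd
  have hM : ∀ v, (L v \ A).Nonempty := fun v => by
    rw [← Finset.card_pos, (hL v).2]; norm_num
  -- the two colours
  obtain ⟨γ, γ', hγ, hγ', hγy⟩ : ∃ γ γ', γ ∈ L s \ A ∧ γ' ∈ L s' \ A ∧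
      (γ = γ' ∨ γ ∉ L y ∨ γ' ∉ L y) := by
    by_cases h1 : L s \ A ⊆ L y
    · by_cases h2 : L s' \ A ⊆ L y
      · have h3 : L s \ A = L y \ A := by
          apply Finset.eq_of_subset_of_card_le
          · intro x hx
            exact Finset.mem_sdiff.2 ⟨h1 hx, (Finset.mem_sdiff.1 hx).2⟩
          · rw [(hL s).2, (hL y).2]
        have h4 : L s' \ A = L y \ A := by
          apply Finset.eq_of_subset_of_card_le
          · intro x hx
            exact Finset.mem_sdiff.2 ⟨h2 hx, (Finset.mem_sdiff.1 hx).2⟩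
          · rw [(hL s').2, (hL y).2]
        obtain ⟨x, hx⟩ := hM y
        exact ⟨x, x, h3 ▸ hx, h4 ▸ hx, Or.inl rfl⟩
      · obtain ⟨x, hx, hxy⟩ := Finset.not_subset.1 h2
        obtain ⟨z, hz⟩ := hM s
        exact ⟨z, x, hz, hx, Or.inr (Or.inr hxy)⟩
    · obtain ⟨x, hx, hxy⟩ := Finset.not_subset.1 h1
      obtain ⟨z, hz⟩ := hM s'
      exact ⟨x, z, hx, hz, Or.inr (Or.inl hxy)⟩
  -- the colouring of `S`
  obtain ⟨c0, hc0, hc0s, hc0s'⟩ : ∃ c0 : V → ℕ, (∀ t, c0 t ∈ L t \ A) ∧ c0 s = γ ∧ c0 s' = γ' := by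
    refine ⟨fun t => if t = s then γ else if t = s' then γ' else (hM t).choose, ?_, ?_, ?_⟩
    · intro t
      dsimp only
      split_ifs with h1 h2
      · rw [h1]; exact hγ
      · rw [h2]; exact hγ'
      · exact (hM t).choose_spec
    · simp
    · simp [hss'.symm]
  -- colours of `A`
  have ha : ∀ r, ∃ a, a ∈ L r ∧ a ∈ A := by
    intro r
    obtain ⟨a, ha⟩ := Finset.card_pos.1 (by rw [(hL r).1]; norm_num : 0 < (L r ∩ A).card)
    exact ⟨a, (Finset.mem_inter.1 ha).1, (Finset.mem_inter.1 ha).2⟩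
  choose a haL haA using ha
  -- the colours of the other vertices
  have hm : ∀ r, ∃ m, m ∈ L r \ A ∧ (r ∈ U → r ∉ S → ∀ t ∈ S, G.Adj r t → c0 t ≠ m) := by
    intro r
    by_cases hr : r ∈ U ∧ r ∉ S
    · obtain ⟨m1, m2, hm12, hm⟩ := Finset.card_eq_two.1 (hL r).2
      by_contra hcon
      push Not at hcon
      obtain ⟨-, -, t1, ht1, hrt1, hc1⟩ := hcon m1 (by rw [hm]; simp)
      obtain ⟨-, -, t2, ht2, hrt2, hc2⟩ := hcon m2 (by rw [hm]; simp)
      have h1 := (Set.ncard_le_one (Set.toFinite _)).1 (hU r hr.1 hr.2) t1 ⟨ht1, hrt1⟩ t2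
        ⟨ht2, hrt2⟩
      apply hm12
      rw [← hc1, ← hc2, h1]
    · exact ⟨(hM r).choose, (hM r).choose_spec, fun h1 h2 => (hr ⟨h1, h2⟩).elim⟩
  choose m hmM hmS using hm
  let c : V → ℕ := fun v => if v ∈ S then c0 v else if p v = true then a v else m v
  have hcS : ∀ v ∈ S, c v = c0 v := fun v hv => if_pos hv
  have hcT : ∀ v, v ∉ S → p v = true → c v = a v := fun v hv hpv => by
    simp only [c, if_neg hv, if_pos hpv]
  have hcF : ∀ v, v ∉ S → ¬ p v = true → c v = m v := fun v hv hpv => by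
    simp only [c, if_neg hv, if_neg hpv]
  have hM2 : ∀ v x, x ∈ L v \ A → x ∈ L v ∧ x ∉ A := fun v x hx => Finset.mem_sdiff.1 hx
  have key : ∀ u ∈ S, ∀ v ∈ U, v ∉ S → G.Adj v u → c u ≠ c v := by
    intro u hu v hvU hv huv
    rw [hcS u hu]
    by_cases hpv : p v = true
    · rw [hcT v hv hpv]
      intro h
      exact (hM2 u _ (hc0 u)).2 (h ▸ haA v)
    · rw [hcF v hv hpv]
      exact hmS v hvU hv u hu huv
  have hcol : ColOn G U L c := by
    constructor
    · intro v hv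
      by_cases hvS : v ∈ S
      · rw [hcS v hvS]; exact (hM2 v _ (hc0 v)).1
      · by_cases hpv : p v = true
        · rw [hcT v hvS hpv]; exact haL v
        · rw [hcF v hvS hpv]; exact (hM2 v _ (hmM v)).1
    · intro u hu v hv huv
      by_cases huS : u ∈ S
      · by_cases hvS : v ∈ S
        · exact (hS u huS v hvS huv).elim
        · exact key u huS v hv hvS huv.symm
      · by_cases hvS : v ∈ S
        · exact (key v hvS u hu huS huv).symm
        · have hpuv := hp u (hUW hu) huS v (hUW hv) hvS huv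
          by_cases hpu : p u = true
          · have hpv : ¬ p v = true := fun h => hpuv (hpu.trans h.symm)
            rw [hcT u huS hpu, hcF v hvS hpv]
            intro h
            exact (hM2 v _ (hmM v)).2 (h ▸ haA u)
          · have hpv : p v = true := by
              cases h : p v
              · cases h' : p u
                · exact (hpuv (h'.trans h.symm)).elim
                · exact (hpu h').elim
              · rfl
            rw [hcF u huS hpu, hcT v hvS hpv]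
            intro h
            exact (hM2 u _ (hmM u)).2 (h ▸ haA v)
  have hlosty : lost G U L c y + 1 ≤ dg G y U := by
    rcases hγy with h | h | h
    · apply lost_lt G U L c y s (hSU hs.1) hs.2
      right
      exact ⟨s', hSU hs'.1, hs'.2, hss'.symm, by rw [hcS s hs.1, hcS s' hs'.1, hc0s, hc0s', h]⟩
    · apply lost_lt G U L c y s (hSU hs.1) hs.2
      left
      rw [hcS s hs.1, hc0s]; exact h
    · apply lost_lt G U L c y s' (hSU hs'.1) hs'.2
      left
      rw [hcS s' hs'.1, hc0s']; exact h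
  obtain ⟨c', -, hc'⟩ := hExt V G p L U W c hUW
    (fun u hu huU v hv hvU huv =>
      hp u hu (fun h => huU (hSU h)) v hv (fun h => hvU (hSU h)) huv)
    (fun v => by
      have h1 := Finset.card_inter_add_card_sdiff (L v) A
      rw [(hL v).1, (hL v).2] at h1
      exact h1.symm)
    hcol
    (by
      intro U' hUU' hU'W
      have h1 : ∀ r ∈ U' \ U, (lost G U L c r : ℤ) ≤ (dg G r U : ℤ) := fun r _ => by
        exact_mod_cast lost_le G U L c r
      rcases eq_or_ne U' W with rfl | hne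
      · have hyU' : y ∈ U' \ U := Finset.mem_sdiff.2 ⟨hyW, hyU⟩
        have h2 : ∑ r ∈ U' \ U, (lost G U L c r : ℤ) + 1 ≤ ∑ r ∈ U' \ U, (dg G r U : ℤ) := by
          rw [← Finset.add_sum_erase _ _ hyU', ← Finset.add_sum_erase _ _ hyU']
          have h3 : ∑ r ∈ (U' \ U).erase y, (lost G U L c r : ℤ) ≤
              ∑ r ∈ (U' \ U).erase y, (dg G r U : ℤ) :=
            Finset.sum_le_sum (fun r hr => h1 r (Finset.mem_of_mem_erase hr))
          have h4 : (lost G U L c y : ℤ) + 1 ≤ (dg G y U : ℤ) := by exact_mod_cast hlosty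
          linarith
        linarith
      · have h2 := hdf U' hUU' (Finset.ssubset_iff_subset_ne.2 ⟨hU'W, hne⟩)
        have h3 := Finset.sum_le_sum h1
        linarith)
  exact ⟨c', hc'⟩

end Pool.Agent.Helper74.OC.C3
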